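import Pool.Agent.Helper41_G02.HD2

/-!
Module DB2 (squad G02): points with both classes trivial are doubles.
-/

set_option autoImplicit false

namespace Pool.Agent.G02.H41

open Polynomial Pool.Agent.G02 WeierstrassCurve WeierstrassCurve.Affine

/-- DB2. -/
theorem db2 (sec : SecStmt) (hd1 : Hd1Stmt) : Db2Stmt := by
  intro _ W e a b hR hb hbs L _ _ _ β hQu P h1 h2
  have hm : a ^ 2 - 4 * b ≠ 0 := by
    intro h0
    apply hQu.nsq
    rw [h0]
    exact ⟨0, by simp⟩
  cases P with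
  | zero => exact ⟨0, (add_zero _).symm⟩
  | some x y h =>
    obtain ⟨h11, h12⟩ := h1
    have hxe : x ≠ e := by
      intro hxe
      apply hbs
      have := h12 hxe
      rwa [one_mul] at this
    obtain ⟨s, hs⟩ := h11 hxe
    rw [one_mul, ← sq] at hs
    have hs0 : s ≠ 0 := by
      rintro rfl
      apply hxe
      have : x - e = 0 := by rw [hs]; ring
      exact sub_eq_zero.1 this
    obtain ⟨z, hz⟩ : ∃ z, z = a + 2 * s ^ 2 + (2 * y + W.a₁ * x + W.a₃) / s := ⟨_, rfl⟩
    obtain ⟨hz0, _, hz2⟩ := sec W e a b hR L β hQu x y s h hs0 hs z hz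
    have hsq := (hz2 1).1 h2
    rw [one_mul] at hsq
    rcases hQu.ker z hsq with hk | ⟨w, hw⟩
    · exact hd1 ℚ W e a b hR hb hm x y s h hs0 hs (hz ▸ hk)
    · refine hd1 ℚ W e a b hR hb hm x y (-s) h (neg_ne_zero.2 hs0) (by rw [hs]; ring) ?_
      have hE := key_eq hR h.1
      obtain ⟨D, hD⟩ : ∃ D, D = 2 * y + W.a₁ * x + W.a₃ := ⟨_, rfl⟩
      rw [← hD] at hE hz ⊢
      rw [hs] at hE
      have e2 : (D / s) ^ 2 = 4 * (s ^ 4 + a * s ^ 2 + b) := by
        rw [div_pow, hE]
        field_simp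
      have e3 : z * (a + 2 * (-s) ^ 2 + D / (-s)) = a ^ 2 - 4 * b := by
        rw [hz, div_neg]
        linear_combination (-1) * e2
      refine ⟨w / z, ?_⟩
      have e4 : a + 2 * (-s) ^ 2 + D / (-s) = (a ^ 2 - 4 * b) / z := by
        rw [eq_div_iff hz0, mul_comm]
        exact e3
      rw [e4, div_mul_div_comm, ← hw, mul_comm z, mul_div_mul_right _ _ hz0]

end Pool.Agent.G02.H41
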