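import Pool.Agent.G02.StmtsR

/-!
Module HD2 (squad G02): halving, second part.
-/

set_option autoImplicit false

namespace Pool.Agent.G02.H41

open Polynomial Pool.Agent.G02 WeierstrassCurve WeierstrassCurve.Affine

/-- The equation in the coordinate `x - e`. -/
theorem key_eq {K : Type} [Field K] {W : WeierstrassCurve K} {e a b x y : K}
    (hR : Rt1 W e a b) (hE : W.toAffine.Equation x y) :
    (2 * y + W.a₁ * x + W.a₃) ^ 2 = 4 * ((x - e) * ((x - e) ^ 2 + a * (x - e) + b)) := by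
  obtain ⟨h2, h4, h6⟩ := hR
  have hE' := (Affine.equation_iff' _ _).1 hE
  unfold WeierstrassCurve.b₂ at h2
  unfold WeierstrassCurve.b₄ at h4
  unfold WeierstrassCurve.b₆ at h6
  linear_combination 4 * hE' + x ^ 2 * h2 + 2 * x * h4 + h6

/-- The double of a point in the coordinate `x - e`. -/
theorem double_x {K : Type} [Field K] [CharZero K] [DecidableEq K] {W : WeierstrassCurve K}
    {e a b x y : K} (hR : Rt1 W e a b) (h : W.toAffine.Nonsingular x y)
    (Q : W.toAffine.Point) (hQ : Point.some x y h = Q + Q) :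
    ∃ X Y : K, Y ≠ 0 ∧ Y ^ 2 = X * (X ^ 2 + a * X + b) ∧ x - e = ((X ^ 2 - b) / (2 * Y)) ^ 2 := by
  have two : (2 : K) ≠ 0 := two_ne_zero
  cases Q with
  | zero =>
    exfalso
    have h1 : (Point.zero : W.toAffine.Point) + Point.zero = 0 := add_zero 0
    rw [h1] at hQ
    exact Point.some_ne_zero h hQ
  | some x₁ y₁ h₁ =>
    by_cases hy : y₁ = W.toAffine.negY x₁ y₁
    · exfalso
      rw [Point.add_self_of_Y_eq hy] at hQ
      exact Point.some_ne_zero h hQ
    rw [Point.add_self_of_Y_ne hy] at hQ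
    have hx := (Point.some.inj hQ).1
    have hE := key_eq hR h₁.1
    obtain ⟨h2, h4, h6⟩ := hR
    unfold WeierstrassCurve.b₂ at h2
    unfold WeierstrassCurve.b₄ at h4
    unfold WeierstrassCurve.b₆ at h6
    obtain ⟨X, hX⟩ : ∃ X, X = x₁ - e := ⟨_, rfl⟩
    obtain ⟨Y, hY⟩ : ∃ Y, Y = (2 * y₁ + W.a₁ * x₁ + W.a₃) / 2 := ⟨_, rfl⟩
    have hY2 : 2 * y₁ + W.a₁ * x₁ + W.a₃ = 2 * Y := by rw [hY]; field_simp
    have hneg : y₁ - W.toAffine.negY x₁ y₁ = 2 * Y := by
      unfold Affine.negY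
      rw [← hY2]
      ring
    have hY0 : Y ≠ 0 := by
      intro h0
      apply hy
      have := hneg
      rw [h0, mul_zero] at this
      exact sub_eq_zero.1 this
    have hYX : Y ^ 2 = X * (X ^ 2 + a * X + b) := by
      rw [hY2, ← hX] at hE
      have h4 : (4 : K) ≠ 0 := by exact_mod_cast (by norm_num : (4 : ℕ) ≠ 0)
      apply mul_left_cancel₀ h4
      linear_combination hE
    have e2 : W.a₂ = a - 3 * e - W.a₁ ^ 2 / 4 := by
      field_simp
      linear_combination h2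
    have e4 : W.a₄ = 3 * e ^ 2 - 2 * a * e + b - W.a₁ * W.a₃ / 2 := by
      field_simp
      linear_combination h4
    have ey : y₁ = Y - (W.a₁ * x₁ + W.a₃) / 2 := by
      field_simp
      linear_combination hY2
    have ex : x₁ = X + e := by rw [hX]; ring
    have hs : W.toAffine.slope x₁ x₁ y₁ y₁ = (3 * X ^ 2 + 2 * a * X + b) / (2 * Y) - W.a₁ / 2 := by
      rw [Affine.slope_of_Y_ne rfl hy, hneg, e2, e4, ey, ex]
      field_simp
      ring
    refine ⟨X, Y, hY0, hYX, ?_⟩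
    rw [hx, hs]
    unfold Affine.addX
    rw [e2, ex]
    have h1 : ((3 * X ^ 2 + 2 * a * X + b) / (2 * Y) - W.a₁ / 2) ^ 2 +
        W.a₁ * ((3 * X ^ 2 + 2 * a * X + b) / (2 * Y) - W.a₁ / 2) -
        (a - 3 * e - W.a₁ ^ 2 / 4) - (X + e) - (X + e) - e =
        ((3 * X ^ 2 + 2 * a * X + b) / (2 * Y)) ^ 2 - a - 2 * X := by
      ring
    rw [h1, div_pow, div_pow, eq_div_iff (pow_ne_zero 2 (mul_ne_zero two hY0)), sub_mul, sub_mul,
      div_mul_cancel₀ _ (pow_ne_zero 2 (mul_ne_zero two hY0))]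
    linear_combination (-4 * (a + 2 * X)) * hYX

/-- HD2. -/
theorem hd2 : Hd2Stmt := by
  intro K _ _ _ W e a b hR hb hd x y h Q hQ
  have two : (2 : K) ≠ 0 := two_ne_zero
  obtain ⟨X, Y, hY0, hYX, hx⟩ := double_x hR h Q hQ
  have hX0 : X ≠ 0 := by
    rintro rfl
    apply hY0
    have : Y ^ 2 = 0 := by rw [hYX, zero_mul]
    exact pow_eq_zero_iff (two_ne_zero) |>.1 this
  have h2Y : (2 : K) * Y ≠ 0 := mul_ne_zero two hY0
  constructor
  · intro hxe
    rw [hxe, sub_self] at hx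
    have h1 : (X ^ 2 - b) / (2 * Y) = 0 := pow_eq_zero_iff (two_ne_zero) |>.1 hx.symm
    rw [div_eq_zero_iff] at h1
    rcases h1 with h1 | h1
    · exact ⟨X, by linear_combination -h1⟩
    · exact absurd h1 h2Y
  · intro hxe
    obtain ⟨s, hs⟩ : ∃ s, s = (X ^ 2 - b) / (2 * Y) := ⟨_, rfl⟩
    rw [← hs] at hx
    have hs0 : s ≠ 0 := by
      rintro rfl
      apply hxe
      have : x - e = 0 := by rw [hx]; ring
      exact sub_eq_zero.1 this
    have hE := key_eq hR h.1
    obtain ⟨D, hD⟩ : ∃ D, D = 2 * y + W.a₁ * x + W.a₃ := ⟨_, rfl⟩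
    rw [← hD, hx] at hE
    rw [← hD]
    have hs1 : 2 * s * Y = X ^ 2 - b := by
      rw [hs]
      field_simp
    -- the square
    have hz : ((Y / X) ^ 2 - (a + 2 * s ^ 2)) ^ 2 = (D / s) ^ 2 := by
      have e1 : (Y / X) ^ 2 = X + a + b / X := by
        rw [div_pow, hYX]
        field_simp
      have e2 : (D / s) ^ 2 = 4 * (s ^ 4 + a * s ^ 2 + b) := by
        rw [div_pow, hE]
        field_simp
      have e3 : 4 * s ^ 2 * (X + a + b / X) = (X - b / X) ^ 2 := by
        have h1 : 4 * s ^ 2 * Y ^ 2 = (X ^ 2 - b) ^ 2 := by rw [← hs1]; ring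
        rw [← e1, div_pow]
        field_simp
        linear_combination h1
      rw [e1, e2]
      have e4 : X * (b / X) = b := by field_simp
      linear_combination (-1) * e3 + 4 * e4
    rcases sq_eq_sq_iff_eq_or_eq_neg.1 hz with h1 | h1
    · refine ⟨s, hs0, hx, Y / X, ?_⟩
      linear_combination -h1
    · refine ⟨-s, neg_ne_zero.2 hs0, by rw [hx]; ring, Y / X, ?_⟩
      rw [div_neg]
      linear_combination -h1

end Pool.Agent.G02.H41
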