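import Pool.Agent.G02.Stmts

/-!
Module KRS (squad G02): the symbols of `k` in recipe S.
-/

set_option autoImplicit false

namespace Pool.Agent.G02.H41

open Pool.Agent.G02 NumberTheorySymbols

/-- The symbols of `r` and `-q` agree at each prime divisor of `k`. -/
theorem krs_local {m : ℕ} {k : ℤ} {p q r : ℕ} (h : RS m k p q r) (l : ℕ) [Fact l.Prime]
    (hl : l ≠ 2) (hk : (l : ℤ) ∣ k) : legendreSym l r = legendreSym l (-q) := by
  obtain ⟨e1, e2⟩ := h.leg l hl hk
  have hp : ((2 * p : ℤ) : ZMod l) ≠ 0 := by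
    intro h0
    have : ((2 * p * q : ℤ) : ZMod l) = 0 := by
      have h1 : ((2 * p * q : ℤ) : ZMod l) = ((2 * p : ℤ) : ZMod l) * (q : ZMod l) := by
        push_cast; ring
      rw [h1, h0, zero_mul]
    rw [(legendreSym.eq_zero_iff l _).2 this] at e1
    norm_num at e1
  have h2 : legendreSym l ((2 * p) ^ 2 * (r * (-q))) = 1 := by
    have : ((2 * p) ^ 2 * (r * (-q)) : ℤ) = (2 * p * q) * (-(2 * p * r)) := by ring
    rw [this, legendreSym.mul, e1, e2]
    norm_num
  rw [legendreSym.mul, legendreSym.sq_one' l hp, one_mul, legendreSym.mul] at h2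
  rcases Int.eq_one_or_neg_one_of_mul_eq_one' h2 with ⟨h3, h4⟩ | ⟨h3, h4⟩ <;> rw [h3, h4]

/-- Two integers with the same symbols at the prime divisors of `K` have the same symbol at `K`. -/
theorem jac_congr (a b : ℤ) (K : ℕ)
    (h : ∀ (l : ℕ) [Fact l.Prime], l ∣ K → legendreSym l a = legendreSym l b) :
    jacobiSym a K = jacobiSym b K := by
  unfold jacobiSym
  congr 1
  refine List.pmap_congr_left _ ?_
  intro l hl h1 h2
  haveI : Fact l.Prime := ⟨h1⟩
  exact h l (Nat.dvd_of_mem_primeFactorsList hl)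

theorem chi_sq {K : ℕ} (hK : K % 2 = 1) :
    (K % 4 = 3 ∧ ZMod.χ₄ K = -1) ∨ (K % 4 = 1 ∧ ZMod.χ₄ K = 1) := by
  rcases (show K % 4 = 3 ∨ K % 4 = 1 by omega) with h | h
  · exact Or.inl ⟨h, ZMod.χ₄_nat_three_mod_four h⟩
  · exact Or.inr ⟨h, ZMod.χ₄_nat_one_mod_four h⟩

/-- KRS. -/
theorem krs : KrsStmt := by
  constructor
  · intro k p q r _ _ h hk hpos
    obtain ⟨K, rfl⟩ : ∃ K : ℕ, k = K := ⟨k.toNat, by omega⟩
    have hK : K % 2 = 1 := by
      have := Int.odd_iff.1 hk
      omega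
    have hKo : Odd K := Nat.odd_iff.2 hK
    have hr4 : r % 4 = 1 := by
      have := h.hr; have := h.mp; have := h.mq
      omega
    have hq4 : q % 4 = 3 := by
      have := h.mq
      omega
    have e : jacobiSym (r : ℤ) K = jacobiSym (-(q : ℤ)) K := by
      refine jac_congr _ _ K fun l _ hl => krs_local h l ?_ (Int.natCast_dvd_natCast.2 hl)
      rintro rfl
      omega
    rw [jacobiSym.neg _ hKo] at e
    rw [jacobiSym.legendreSym.to_jacobiSym, jacobiSym.legendreSym.to_jacobiSym,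
      ← jacobiSym.quadratic_reciprocity_one_mod_four hr4 hKo, e,
      ← jacobiSym.quadratic_reciprocity_if (a := K) (b := q) hK (by omega)]
    rcases chi_sq hK with ⟨h1, h2⟩ | ⟨h1, h2⟩
    · rw [if_pos ⟨h1, hq4⟩, h2]; ring
    · rw [if_neg (by omega), h2]; ring
  · intro k p q r _ _ h hk hneg
    obtain ⟨K, rfl⟩ : ∃ K : ℕ, k = -(K : ℤ) := ⟨(-k).toNat, by omega⟩
    have hK : K % 2 = 1 := by
      have := Int.odd_iff.1 hk
      omega
    have hKo : Odd K := Nat.odd_iff.2 hK
    have hr4 : r % 4 = 3 := by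
      have := h.hr; have := h.mp; have := h.mq
      omega
    have hq4 : q % 4 = 1 := by
      have := h.mq
      omega
    have e : jacobiSym (r : ℤ) K = jacobiSym (-(q : ℤ)) K := by
      refine jac_congr _ _ K fun l _ hl => krs_local h l ?_
        (dvd_neg.2 (Int.natCast_dvd_natCast.2 hl))
      rintro rfl
      omega
    rw [jacobiSym.neg _ hKo] at e
    rw [jacobiSym.legendreSym.to_jacobiSym, jacobiSym.legendreSym.to_jacobiSym,
      jacobiSym.neg _ (Nat.odd_iff.2 (by omega) : Odd r), jacobiSym.neg _ (Nat.odd_iff.2 (by omega) : Odd q),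
      ZMod.χ₄_nat_three_mod_four hr4, ZMod.χ₄_nat_one_mod_four hq4,
      ← jacobiSym.quadratic_reciprocity_one_mod_four hq4 hKo,
      ← jacobiSym.quadratic_reciprocity_if (a := K) (b := r) hK (by omega), e]
    rcases chi_sq hK with ⟨h1, h2⟩ | ⟨h1, h2⟩
    · rw [if_pos ⟨h1, hr4⟩, h2]; ring
    · rw [if_neg (by omega), h2]; ring

end Pool.Agent.G02.H41
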