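import Pool.Agent.G02.Stmts

/-!
Module LD (squad G02): a local lemma.
-/

set_option autoImplicit false

namespace Pool.Agent.G02.H41

open Pool.Agent.G02

/-- LD. -/
theorem ld (le : LeStmt) : LdStmt := by
  intro a b d M e N B hq l _ a₁ b₁ c₁ hl ha hb hc hs
  have hl' : Prime (l : ℤ) := Nat.prime_iff_prime_int.1 (Fact.out : l.Prime)
  have h0 : ((2 * a₁ * c₁ : ℤ) : ZMod l) ≠ 0 := by
    intro h
    rw [(legendreSym.eq_zero_iff l _).2 h] at hs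
    norm_num at hs
  have h1 : ¬ (l : ℤ) ∣ 2 * a₁ * c₁ := by
    rwa [← ZMod.intCast_zmod_eq_zero_iff_dvd] 
  have ha1 : ¬ (l : ℤ) ∣ a₁ := fun h => h1 ((h.mul_left 2).mul_right c₁)
  have hc1 : ¬ (l : ℤ) ∣ c₁ := fun h => h1 (h.mul_left _)
  obtain ⟨e1, e2⟩ := le a b d M e N B hq l a₁ b₁ c₁ hl ha hb hc ha1 hc1
  have hd : ¬ (l : ℤ) ∣ d := by
    rintro ⟨d₁, hd⟩
    obtain ⟨f1, f2⟩ := e2 d₁ hd
    have hd1 : ¬ (l : ℤ) ∣ d₁ := by
      rintro ⟨d₂, rfl⟩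
      have := hq.sqf l ⟨d₂, by rw [hd]; ring⟩
      exact hl'.not_unit this
    have hd1' : ((d₁ : ℤ) : ZMod l) ≠ 0 := by
      rwa [Ne, ZMod.intCast_zmod_eq_zero_iff_dvd]
    have h2 : legendreSym l ((2 * a₁ * c₁) * d₁ ^ 2) = 1 := by
      have : (2 * a₁ * c₁) * d₁ ^ 2 = (-(c₁ * d₁)) * (-(2 * a₁ * d₁)) := by ring
      rw [this, legendreSym.mul, f1, f2, one_mul]
    rw [legendreSym.mul, hs, legendreSym.sq_one' l hd1'] at h2
    norm_num at h2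
  exact ⟨hd, e1 hd⟩

end Pool.Agent.G02.H41
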