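import Pool.Agent.G02.StmtsR

/-!
Module PRB (squad G02): parameters of rank one.
-/

set_option autoImplicit false

namespace Pool.Agent.G02.H41

open Pool.Agent.G02

theorem val_zero (l c : ℕ) (hc : ¬ l ∣ c) : padicValRat l (c : ℚ) = 0 := by
  rw [padicValRat.of_nat, padicValNat.eq_zero_of_not_dvd hc]
  rfl

theorem val_up (l c b : ℕ) [Fact l.Prime] (hc : ¬ l ∣ c) (hb : ¬ l ∣ b) :
    padicValRat l ((c : ℚ) * l / b) = 1 := by
  have c0 : (c : ℚ) ≠ 0 := by
    have : c ≠ 0 := by rintro rfl; exact hc (dvd_zero _)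
    exact_mod_cast this
  have b0 : (b : ℚ) ≠ 0 := by
    have : b ≠ 0 := by rintro rfl; exact hb (dvd_zero _)
    exact_mod_cast this
  have l0 : (l : ℚ) ≠ 0 := by
    have : l ≠ 0 := (Fact.out : l.Prime).ne_zero
    exact_mod_cast this
  rw [padicValRat.div (mul_ne_zero c0 l0) b0, padicValRat.mul c0 l0, val_zero l c hc,
    val_zero l b hb, padicValRat.self (Fact.out : l.Prime).one_lt]
  rfl

theorem val_down (l c : ℕ) [Fact l.Prime] (hc : ¬ l ∣ c) :
    padicValRat l ((c : ℚ) / l) = -1 := by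
  have c0 : (c : ℚ) ≠ 0 := by
    have : c ≠ 0 := by rintro rfl; exact hc (dvd_zero _)
    exact_mod_cast this
  have l0 : (l : ℚ) ≠ 0 := by
    have : l ≠ 0 := (Fact.out : l.Prime).ne_zero
    exact_mod_cast this
  rw [padicValRat.div c0 l0, val_zero l c hc, padicValRat.self (Fact.out : l.Prime).one_lt]
  rfl

/-- PRB. -/
theorem prb (ex1 : Ex1Stmt) : PrbStmt := by
  intro n
  obtain ⟨p, q, r, hp, hq, h⟩ := ex1 n
  have hrr : r = p + 2 * q := by
    have := h.hr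
    exact_mod_cast this
  have h1 := h.mp
  have h2 := h.mq
  haveI : Fact p.Prime := ⟨h.pp⟩
  haveI : Fact q.Prime := ⟨h.pq⟩
  haveI : Fact r.Prime := ⟨h.pr⟩
  have hdvd : ∀ {a b : ℕ}, a.Prime → b.Prime → a ≠ b → ¬ a ∣ b := by
    intro a b ha hb hab h3
    exact hab ((Nat.prime_dvd_prime_iff_eq ha hb).1 h3)
  have q0 : q ≠ 0 := h.pq.ne_zero
  have p0 : p ≠ 0 := h.pp.ne_zero
  have npq : p ≠ q := by rintro rfl; omega
  have npr : p ≠ r := by rintro rfl; omega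
  have nqr : q ≠ r := by omega
  have np2 : p ≠ 2 := by rintro rfl; omega
  have nq2 : q ≠ 2 := by rintro rfl; omega
  have nr2 : r ≠ 2 := by omega
  have p2 := hdvd h.pp Nat.prime_two np2
  have q2 := hdvd h.pq Nat.prime_two nq2
  have r2 := hdvd h.pr Nat.prime_two nr2
  have pq := hdvd h.pp h.pq npq
  have pr := hdvd h.pp h.pr npr
  have qp := hdvd h.pq h.pp npq.symm
  have qr := hdvd h.pq h.pr nqr
  have rp := hdvd h.pr h.pp npr.symm
  have rq := hdvd h.pr h.pq nqr.symm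
  have q0' : (q : ℚ) ≠ 0 := by exact_mod_cast q0
  have r0' : (r : ℚ) ≠ 0 := by exact_mod_cast h.pr.ne_zero
  have er : (r : ℚ) = p + 2 * q := by rw [hrr]; push_cast; ring
  have e1 : (-(2 * p / q) : ℚ) - 4 = -(2 * r / q) := by
    rw [er]
    field_simp
    ring
  have e2 : (4 * p / r : ℚ) - 4 = -(((8 : ℕ) : ℚ) * q / r) := by
    have : (p : ℚ) = r - 2 * q := by rw [er]; ring
    rw [this]
    push_cast
    field_simp
    ring
  have p4 : ¬ p ∣ 4 := fun h3 => p2 (h.pp.dvd_of_dvd_pow (show p ∣ 2 ^ 2 from h3))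
  have q8 : ¬ q ∣ 8 := fun h3 => q2 (h.pq.dvd_of_dvd_pow (show q ∣ 2 ^ 3 from h3))
  refine ⟨p, q, r, hp, hq, by omega, h, ⟨?_, ?_, ?_⟩, ⟨?_, ?_, ?_⟩, e1⟩
  · refine ⟨p, h.pp, hp, ?_⟩
    rw [padicValRat.neg]
    exact_mod_cast val_up p 2 q p2 pq
  · refine ⟨r, h.pr, by omega, ?_⟩
    rw [e1, padicValRat.neg]
    exact_mod_cast val_up r 2 q r2 rq
  · refine ⟨q, h.pq, hq, ?_⟩
    rw [padicValRat.neg]
    have := val_down q (2 * p) (fun h3 => by
      rcases (h.pq.dvd_mul).1 h3 with h4 | h4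
      · exact q2 h4
      · exact qp h4)
    exact_mod_cast this
  · refine ⟨p, h.pp, hp, ?_⟩
    exact_mod_cast val_up p 4 r p4 pr
  · refine ⟨q, h.pq, hq, ?_⟩
    rw [e2, padicValRat.neg]
    exact val_up q 8 r q8 qr
  · refine ⟨r, h.pr, by omega, ?_⟩
    have := val_down r (4 * p) (fun h3 => by
      rcases (h.pr.dvd_mul).1 h3 with h4 | h4
      · exact r2 (h.pr.dvd_of_dvd_pow (show r ∣ 2 ^ 2 from h4))
      · exact rp h4)
    exact_mod_cast this

end Pool.Agent.G02.H41
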