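import Pool.Agent.G02.Stmts

/-!
Module TWV (squad G02): the 2-adic size of the double.
-/

set_option autoImplicit false

namespace Pool.Agent.G02.H41

open Pool.Agent.G02

/-- `q` is zero or has a 2-adic valuation at least `k`. -/
def Ge (k : ℤ) (q : ℚ) : Prop := q = 0 ∨ k ≤ padicValRat 2 q

theorem Ge.mono {k l : ℤ} {q : ℚ} (h : Ge l q) (hk : k ≤ l) : Ge k q :=
  h.imp id fun h => hk.trans h

theorem Ge.add {k : ℤ} {q r : ℚ} (hq : Ge k q) (hr : Ge k r) : Ge k (q + r) := by
  rcases hq with rfl | hq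
  · rw [zero_add]; exact hr
  rcases hr with rfl | hr
  · rw [add_zero]; exact Or.inr hq
  by_cases h : q + r = 0
  · exact Or.inl h
  · exact Or.inr ((le_min hq hr).trans (padicValRat.min_le_padicValRat_add (p := 2) h))

theorem Ge.neg {k : ℤ} {q : ℚ} (hq : Ge k q) : Ge k (-q) := by
  rcases hq with rfl | hq
  · left; simp
  · right; rwa [padicValRat.neg]

theorem Ge.mul {k l : ℤ} {q r : ℚ} (hq : Ge k q) (hr : Ge l r) : Ge (k + l) (q * r) := by
  by_cases q0 : q = 0
  · left; rw [q0, zero_mul]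
  by_cases r0 : r = 0
  · left; rw [r0, mul_zero]
  right
  rw [padicValRat.mul q0 r0]
  exact add_le_add (hq.resolve_left q0) (hr.resolve_left r0)

theorem ge_int (a : ℤ) : Ge 0 (a : ℚ) := by
  right
  rw [padicValRat.of_int]
  exact Int.natCast_nonneg _

theorem val_two : padicValRat 2 (2 : ℚ) = 1 := by
  have := padicValRat.self (p := 2) one_lt_two
  exact_mod_cast this

theorem val_four : padicValRat 2 (4 : ℚ) = 2 := by
  rw [show (4 : ℚ) = 2 * 2 by norm_num, padicValRat.mul two_ne_zero two_ne_zero, val_two]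
  rfl

theorem ge_four (a : ℤ) (h : (4 : ℤ) ∣ a) : Ge 2 (a : ℚ) := by
  obtain ⟨u, rfl⟩ := h
  push_cast
  have := Ge.mul (k := 2) (l := 0) (q := 4) (Or.inr val_four.ge) (ge_int u)
  simpa using this

theorem add_val {k : ℤ} {u t : ℚ} (hu : u ≠ 0) (ht : Ge k t) (hk : padicValRat 2 u < k) :
    u + t ≠ 0 ∧ padicValRat 2 (u + t) = padicValRat 2 u := by
  rcases ht with rfl | ht
  · rw [add_zero]; exact ⟨hu, rfl⟩
  have hlt := hk.trans_le ht
  have hne : u + t ≠ 0 := by
    intro h0
    have : t = -u := by linarith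
    rw [this, padicValRat.neg] at hlt
    exact lt_irrefl _ hlt
  by_cases t0 : t = 0
  · rw [t0, add_zero]; exact ⟨hu, rfl⟩
  exact ⟨hne, padicValRat.add_eq_of_lt hne hu t0 hlt⟩

theorem val_odd (u : ℤ) (h : u % 2 = 1) : padicValRat 2 (u : ℚ) = 0 := by
  rw [padicValRat.of_int, padicValInt.eq_zero_of_not_dvd]
  · rfl
  · have h1 : ¬ (2 : ℤ) ∣ u := by omega
    exact_mod_cast h1

/-- TWV. -/
theorem twv : TwvStmt := by
  intro a b hab x y hy hc
  have hb : b ≠ 0 := by
    rintro rfl
    rcases hab with h | ⟨h, _⟩ <;> norm_num at h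
  have qb : (b : ℚ) ≠ 0 := by exact_mod_cast hb
  -- the valuation of `b`
  have vb : padicValRat 2 (b : ℚ) = 1 ∨ (padicValRat 2 (b : ℚ) = 3 ∧ (4 : ℤ) ∣ a) := by
    rcases hab with h | ⟨h, h4⟩
    · left
      obtain ⟨u, hu⟩ : ∃ u : ℤ, b = 2 * u := ⟨b / 2, by omega⟩
      have hu1 : u % 2 = 1 := by omega
      have hu0 : (u : ℚ) ≠ 0 := by
        have : u ≠ 0 := by rintro rfl; omega
        exact_mod_cast this
      rw [hu]
      push_cast
      rw [padicValRat.mul two_ne_zero hu0, val_two, val_odd u hu1]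
      rfl
    · right
      refine ⟨?_, h4⟩
      obtain ⟨u, hu⟩ : ∃ u : ℤ, b = 8 * u := ⟨b / 8, by omega⟩
      have hu1 : u % 2 = 1 := by omega
      have hu0 : (u : ℚ) ≠ 0 := by
        have : u ≠ 0 := by rintro rfl; omega
        exact_mod_cast this
      rw [hu]
      push_cast
      rw [show (8 : ℚ) = 2 * 4 by norm_num, padicValRat.mul (by norm_num) hu0,
        padicValRat.mul two_ne_zero (by norm_num), val_two, val_four, val_odd u hu1]
      rfl
  have hy2 : y ^ 2 ≠ 0 := pow_ne_zero 2 hy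
  have hx : x ≠ 0 := by
    rintro rfl
    apply hy2
    rw [hc]; ring
  have hS : x ^ 2 + a * x + b ≠ 0 := by
    intro h
    apply hy2
    rw [hc, h]; ring
  obtain ⟨m, hm⟩ : ∃ m : ℤ, padicValRat 2 x = m := ⟨_, rfl⟩
  have hx2 : x ^ 2 ≠ 0 := pow_ne_zero 2 hx
  have vx2 : padicValRat 2 (x ^ 2) = 2 * m := by
    rw [padicValRat.pow, hm]; push_cast; ring
  have vy : 2 * padicValRat 2 y = m + padicValRat 2 (x ^ 2 + a * x + b) := by
    have h := congrArg (padicValRat 2) hc
    rw [padicValRat.pow, padicValRat.mul hx hS, hm] at h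
    push_cast at h
    exact h
  have vX : ∀ w : ℤ, x ^ 2 - b ≠ 0 → padicValRat 2 (x ^ 2 - b) = w →
      padicValRat 2 ((x ^ 2 - b) ^ 2 / (4 * y ^ 2)) = 2 * w - 2 - 2 * padicValRat 2 y := by
    intro w hN hw
    rw [padicValRat.div (pow_ne_zero 2 hN) (mul_ne_zero (by norm_num) hy2), padicValRat.pow, hw,
      padicValRat.mul (by norm_num) hy2, val_four, padicValRat.pow]
    push_cast
    ring
  rw [hm]
  rcases lt_or_ge m 0 with h0 | h0
  · have s1 : padicValRat 2 (x ^ 2 + a * x + b) = 2 * m := by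
      rw [add_assoc, (add_val hx2 (k := m) _ (by rw [vx2]; omega)).2, vx2]
      refine Ge.add ?_ ((ge_int b).mono h0.le)
      have := Ge.mul (ge_int a) (Or.inr hm.ge : Ge m x)
      simpa using this
    have s2 := add_val hx2 (k := 0) (ge_int b).neg (by rw [vx2]; omega)
    rw [← sub_eq_add_neg, vx2] at s2
    have := vX _ s2.1 s2.2
    exact ⟨by omega, fun _ => by omega⟩
  refine ⟨?_, fun h => absurd h (not_lt.2 h0)⟩
  have gx : Ge m x := Or.inr hm.ge
  have gx2 : Ge (2 * m) (x ^ 2) := Or.inr vx2.ge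
  rcases eq_or_lt_of_le h0 with h0 | h0
  · have gb : Ge 1 (-(b : ℚ)) := by
      refine Ge.neg (Or.inr ?_)
      rcases vb with h | ⟨h, _⟩ <;> omega
    have s2 := add_val hx2 (k := 1) gb (by rw [vx2]; omega)
    rw [← sub_eq_add_neg, vx2] at s2
    have := vX _ s2.1 s2.2
    have s3 : Ge 0 (x ^ 2 + a * x + b) := by
      refine Ge.add (Ge.add (gx2.mono (by omega)) ?_) (ge_int b)
      have := Ge.mul (ge_int a) gx
      exact this.mono (by omega)
    have := s3.resolve_left hS
    omega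
  rcases vb with vb | ⟨vb, h4⟩
  · have s2 := add_val (neg_ne_zero.2 qb) (k := 2 * m) gx2 (by rw [padicValRat.neg, vb]; omega)
    rw [neg_add_eq_sub, padicValRat.neg, vb] at s2
    have := vX _ s2.1 s2.2
    have s3 : Ge 1 (x ^ 2 + a * x + b) := by
      refine Ge.add (Ge.add (gx2.mono (by omega)) ?_) (Or.inr vb.ge)
      have := Ge.mul (ge_int a) gx
      exact this.mono (by omega)
    have := s3.resolve_left hS
    omega
  · rcases eq_or_lt_of_le (show 1 ≤ m by omega) with h1 | h1
    · exfalso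
      have s1 : padicValRat 2 (x ^ 2 + a * x + b) = 2 * m := by
        rw [add_assoc, (add_val hx2 (k := 3) _ (by rw [vx2]; omega)).2, vx2]
        refine Ge.add ?_ (Or.inr vb.ge)
        have := Ge.mul (ge_four a h4) gx
        exact this.mono (by omega)
      omega
    · have s2 := add_val (neg_ne_zero.2 qb) (k := 2 * m) gx2 (by rw [padicValRat.neg, vb]; omega)
      rw [neg_add_eq_sub, padicValRat.neg, vb] at s2
      have := vX _ s2.1 s2.2
      have s3 : padicValRat 2 (x ^ 2 + a * x + b) = 3 := by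
        rw [add_comm, (add_val qb (k := 4) _ (by rw [vb]; omega)).2, vb]
        refine Ge.add (gx2.mono (by omega)) ?_
        have := Ge.mul (ge_four a h4) gx
        exact this.mono (by omega)
      omega

end Pool.Agent.G02.H41
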