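import Pool.Agent.G02.Stmts

/-!
Module VA1 (squad G02): recipe A, the curve V.
-/

set_option autoImplicit false

namespace Pool.Agent.G02.H41

open Pool.Agent.G02

theorem leg_two {p : ℕ} [Fact p.Prime] (h : p % 8 = 3) : legendreSym p 2 = -1 := by
  have hp : p ≠ 2 := by rintro rfl; omega
  rw [legendreSym.at_two hp, ZMod.χ₈_nat_eq_if_mod_eight]
  rw [if_neg (by omega), if_neg (by omega)]

/-- VA1. -/
theorem va1 (sua : SuaStmt) (rla : RlaStmt) (la : LaStmt) (lb : LbStmt) (rea : ReaStmt)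
    (sqf : Pool.Agent.NJ.SQFStmt) : Va1Stmt := by
  intro k p q r h d M e N B hQ hpd
  haveI : Fact p.Prime := ⟨h.pp⟩
  haveI : Fact q.Prime := ⟨h.pq⟩
  haveI : Fact r.Prime := ⟨h.pr⟩
  obtain ⟨hr8, s, S⟩ := rla k p q r h
  have hP : Prime (p : ℤ) := Nat.prime_iff_prime_int.1 h.pp
  have hR : Prime (r : ℤ) := Nat.prime_iff_prime_int.1 h.pr
  have hk : k ≠ 0 := by
    rintro rfl
    exact S.kp (dvd_zero _)
  have zp : (0 : ℤ) < p := by exact_mod_cast h.pp.pos
  have zq : (0 : ℤ) < q := by exact_mod_cast h.pq.pos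
  have zr : (0 : ℤ) < r := by exact_mod_cast h.pr.pos
  have zk : (0 : ℤ) < k ^ 2 := by positivity
  have hab : (2 * k * p * q) ^ 2 - 4 * (2 * k ^ 2 * p * q ^ 3) = -(4 * k ^ 2 * p * q ^ 2 * r) := by
    rw [h.hr]; ring
  have hb : 0 < 2 * k ^ 2 * p * q ^ 3 := by positivity
  have hd0 : d ≠ 0 := hQ.sqf.ne_zero
  have hd : 0 < d := by
    by_contra hd
    have hd' : d < 0 := lt_of_le_of_ne (not_lt.1 hd) hd0
    have := (rea _ _ d M e N B hQ hd' hb).2
    rw [hab] at this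
    have : 0 < 4 * k ^ 2 * p * q ^ 2 * r := by positivity
    omega
  -- divisibility
  have dpp : ∀ {a b : ℕ}, a.Prime → b.Prime → a ≠ b → ¬ (a : ℤ) ∣ b := by
    intro a b ha hb hab h1
    exact hab ((Nat.prime_dvd_prime_iff_eq ha hb).1 (Int.natCast_dvd_natCast.1 h1))
  have p2 : ¬ (p : ℤ) ∣ 2 := by
    have := dpp h.pp Nat.prime_two S.p2
    simpa using this
  have r2 : ¬ (r : ℤ) ∣ 2 := by
    have := dpp h.pr Nat.prime_two S.r2
    simpa using this
  have pq := dpp h.pp h.pq S.npq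
  have pr := dpp h.pp h.pr S.npr
  have rp := dpp h.pr h.pp S.npr.symm
  have rq := dpp h.pr h.pq S.nqr.symm
  have lp : legendreSym p d = 1 := by
    refine la _ _ d M e N B hQ p S.p2 hpd (Or.inl ⟨⟨2 * k * q, by ring⟩,
      ⟨2 * k ^ 2 * q ^ 3, by ring⟩, ?_⟩)
    intro hd
    have hd' : (p : ℤ) * p ∣ (p : ℤ) * (2 * k ^ 2 * q ^ 3) := by
      have e1 : (p : ℤ) * p = (p : ℤ) ^ 2 := by ring
      have e2 : (p : ℤ) * (2 * k ^ 2 * q ^ 3) = 2 * k ^ 2 * p * q ^ 3 := by ring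
      rw [e1, e2]
      exact hd
    have h5 := (mul_dvd_mul_iff_left zp.ne').1 hd'
    rcases hP.dvd_or_dvd h5 with h6 | h6
    · rcases hP.dvd_or_dvd h6 with h7 | h7
      · exact p2 h7
      · exact S.kp (hP.dvd_of_dvd_pow h7)
    · exact pq (hP.dvd_of_dvd_pow h6)
  have lr : legendreSym r d = 1 := by
    refine lb _ _ d M e N B hQ r S.r2 ?_ ?_ ?_
    · intro hd
      rcases hR.dvd_or_dvd hd with h5 | h5
      · rcases hR.dvd_or_dvd h5 with h6 | h6
        · rcases hR.dvd_or_dvd h6 with h7 | h7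
          · exact r2 h7
          · exact S.kr (hR.dvd_of_dvd_pow h7)
        · exact rp h6
      · exact rq (hR.dvd_of_dvd_pow h5)
    · rw [hab]
      exact ⟨-(4 * k ^ 2 * p * q ^ 2), by ring⟩
    · rw [hab, dvd_neg]
      intro hd
      have hd' : (r : ℤ) * r ∣ (r : ℤ) * (2 * 2 * k ^ 2 * p * q ^ 2) := by
        have e1 : (r : ℤ) * r = (r : ℤ) ^ 2 := by ring
        have e2 : (r : ℤ) * (2 * 2 * k ^ 2 * p * q ^ 2) = 4 * k ^ 2 * p * q ^ 2 * r := by ring
        rw [e1, e2]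
        exact hd
      have h4 := (mul_dvd_mul_iff_left zr.ne').1 hd'
      rcases hR.dvd_or_dvd h4 with h5 | h5
      · rcases hR.dvd_or_dvd h5 with h6 | h6
        · rcases hR.dvd_or_dvd h6 with h7 | h7
          · rcases hR.dvd_or_dvd h7 with h8 | h8 <;> exact r2 h8
          · exact S.kr (hR.dvd_of_dvd_pow h7)
        · exact rp h6
      · exact rq (hR.dvd_of_dvd_pow h5)
  -- supports
  have hsup := (sua k p q r h d M e N B).1 hQ
  obtain ⟨ε, hε, hd4⟩ := (sqf d q r hQ.sqf h.pq h.pr S.q2 S.r2 S.nqr).1 (by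
    intro l hl hld
    rcases hsup l hl hld with h1 | h1 | h1 | h1
    · exact Or.inl h1
    · exact absurd (h1 ▸ hld) hpd
    · exact Or.inr h1
    · exact Or.inl h1)
  have hε1 : ε = 1 := by
    rcases hε with h1 | h1
    · exact h1
    · exfalso
      subst h1
      rcases hd4 with h1 | h1 | h1 | h1 <;> rw [h1] at hd <;> nlinarith
  subst hε1
  have t1 := leg_two (p := p) h.mp
  have t2 := leg_two (p := r) hr8
  rcases hd4 with h1 | h1 | h1 | h1
  · exact h1
  · exfalso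
    rw [h1, one_mul, t1] at lp
    norm_num at lp
  · exfalso
    rw [h1, one_mul, S.hpQ] at lp
    rw [h1, one_mul, S.hrQ] at lr
    omega
  · exfalso
    rw [h1, one_mul, legendreSym.mul, t1, S.hpQ] at lp
    rw [h1, one_mul, legendreSym.mul, t2, S.hrQ] at lr
    omega

end Pool.Agent.G02.H41
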