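import Pool.Agent.G02.StmtsS

/-!
Module EVD (squad G02): the values at `t`.
-/

set_option autoImplicit false

namespace Pool.Agent.G02.H41

open Polynomial Pool.Agent.G02 Pool.Agent.GT.F

/-- `f` has no pole at `t` and the value `v`. -/
def Ok (t : ℚ) (f : RatFunc ℚ) (v : ℚ) : Prop := f.denom.eval t ≠ 0 ∧ ev t f = v

section

variable (evl : Pool.Agent.GT.F.EvlStmt)

include evl

theorem Ok.mul {t : ℚ} {f g : RatFunc ℚ} {u v : ℚ} (hf : Ok t f u) (hg : Ok t g v) :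
    Ok t (f * g) (u * v) := by
  obtain ⟨_, _, _, _, h1, h2⟩ := evl.1 t f g hf.1 hg.1
  exact ⟨h1, by rw [h2, hf.2, hg.2]⟩

theorem Ok.sub {t : ℚ} {f g : RatFunc ℚ} {u v : ℚ} (hf : Ok t f u) (hg : Ok t g v) :
    Ok t (f - g) (u - v) := by
  obtain ⟨_, _, h1, h2, _, _⟩ := evl.1 t f g hf.1 hg.1
  exact ⟨h1, by rw [h2, hf.2, hg.2]⟩

theorem ok_poly (t : ℚ) (p : ℚ[X]) : Ok t (algebraMap ℚ[X] (RatFunc ℚ) p) (p.eval t) :=
  evl.2.1 t p

theorem Ok.inv {t : ℚ} {f : RatFunc ℚ} {u : ℚ} (hf : Ok t f u) (hu : u ≠ 0) :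
    Ok t f⁻¹ u⁻¹ := by
  obtain ⟨h1, h2⟩ := evl.2.2.1 t f hf.1 (by rw [hf.2]; exact hu)
  exact ⟨h1, by rw [h2, hf.2]⟩

theorem ok_one (t : ℚ) : Ok t 1 1 := by
  have := ok_poly evl t 1
  rwa [map_one, eval_one] at this

theorem Ok.pow {t : ℚ} {f : RatFunc ℚ} {u : ℚ} (hf : Ok t f u) (n : ℕ) :
    Ok t (f ^ n) (u ^ n) := by
  induction n with
  | zero => rw [pow_zero, pow_zero]; exact ok_one evl t
  | succ n ih => rw [pow_succ, pow_succ]; exact Ok.mul evl ih hf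

theorem ok_C (t k : ℚ) : Ok t (RatFunc.C k) k := by
  have := ok_poly evl t (Polynomial.C k)
  rwa [RatFunc.algebraMap_C, eval_C] at this

theorem ok_four (t : ℚ) : Ok t 4 4 := by
  have := ok_poly evl t 4
  rwa [map_ofNat, eval_ofNat] at this

end

/-- EVD. -/
theorem evd (evl : Pool.Agent.GT.F.EvlStmt) : EvdStmt := by
  intro a b x y k m i j h
  obtain ⟨Z, hZ⟩ := evl.2.2.2 m
  refine ⟨Z, fun t ht τ hx hy => ?_⟩
  obtain ⟨hm1, hm2⟩ := hZ t ht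
  have hm : Ok t m (ev t m) := ⟨hm1, rfl⟩
  have hl : Ok t (lam x y) τ := by
    have h1 := Ok.mul evl (ok_poly evl t x) (Ok.inv evl (ok_poly evl t y) hy)
    rw [← div_eq_mul_inv, ← div_eq_mul_inv, hx, mul_div_assoc, div_self hy, mul_one] at h1
    exact h1
  have hD : Ok t (RatFunc.C k * m ^ 2 * lam x y ^ i * (lam x y - 4) ^ j)
      (k * (ev t m) ^ 2 * τ ^ i * (τ - 4) ^ j) :=
    Ok.mul evl (Ok.mul evl (Ok.mul evl (ok_C evl t k) (Ok.pow evl hm 2)) (Ok.pow evl hl i))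
      (Ok.pow evl (Ok.sub evl hl (ok_four evl t)) j)
  refine ⟨hm2 h.m0, hm1, ?_, ?_⟩
  · have h1 := Ok.mul evl hD hl
    rw [← h.ha] at h1
    rw [← (ok_poly evl t a).2, h1.2]
  · have h1 := Ok.mul evl (Ok.pow evl hD 2) hl
    rw [← h.hb] at h1
    rw [← (ok_poly evl t b).2, h1.2]

end Pool.Agent.G02.H41
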